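import Mathlib

set_option autoImplicit false

open MeasureTheory Filter Topology Set ProbabilityTheory Metric

namespace Pool.Agent.H.MP_ddcbd8_an

/-- fair coin -/
noncomputable def coin : Measure Bool := (PMF.uniformOfFintype Bool).toMeasure

instance : IsProbabilityMeasure coin := by unfold coin; infer_instance

noncomputable def val (β : ℝ) (a : ℕ → Bool) : ℝ := ∑' k, (if a k then 1 else 0) / β ^ (k + 1)

noncomputable def nu (β : ℝ) : Measure ℝ := (Measure.infinitePi fun _ : ℕ => coin).map (val β)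

theorem summ {β : ℝ} (hβ : 1 < β) (a : ℕ → Bool) :
    Summable fun k : ℕ => (if a k then (1:ℝ) else 0) / β ^ (k + 1) := by
  have h0 : 0 < β := by linarith
  have hg : Summable fun k : ℕ => (β⁻¹) ^ k :=
    summable_geometric_of_lt_one (by positivity) (inv_lt_one_of_one_lt₀ hβ)
  refine Summable.of_nonneg_of_le (fun k => by split_ifs <;> positivity) (fun k => ?_) hg
  rw [inv_pow, div_le_iff₀ (by positivity), pow_succ, ← mul_assoc, inv_mul_cancel₀ (by positivity)]
  split_ifs <;> linarith

theorem meas_val {β : ℝ} (hβ : 1 < β) : Measurable (val β) := by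
  refine measurable_of_tendsto_metrizable
    (f := fun N a => ∑ k ∈ Finset.range N, (if a k then (1:ℝ) else 0) / β ^ (k + 1)) ?_ ?_
  · intro N
    refine Finset.measurable_sum _ fun k _ => ?_
    exact (measurable_of_countable (fun b : Bool => (if b then (1:ℝ) else 0) / β ^ (k + 1))).comp
      (measurable_pi_apply k)
  · rw [tendsto_pi_nhds]
    intro a
    exact (summ hβ a).hasSum.tendsto_sum_nat

theorem val_mem {β : ℝ} (hβ : 1 < β) (a : ℕ → Bool) : val β a ∈ Icc 0 (1 / (β - 1)) := by
  have h0 : 0 < β := by linarith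
  refine ⟨tsum_nonneg fun k => by split_ifs <;> positivity, ?_⟩
  have hg : HasSum (fun k : ℕ => (β⁻¹) ^ k * β⁻¹) ((1 - β⁻¹)⁻¹ * β⁻¹) :=
    (hasSum_geometric_of_lt_one (by positivity) (inv_lt_one_of_one_lt₀ hβ)).mul_right _
  have e : (1 - β⁻¹)⁻¹ * β⁻¹ = 1 / (β - 1) := by
    have : β - 1 ≠ 0 := by linarith
    field_simp
  rw [← e]
  refine hasSum_le (fun k => ?_) (summ hβ a).hasSum hg
  rw [← pow_succ, inv_pow, ← one_div]
  gcongr
  split_ifs <;> norm_num

theorem val_shift {β : ℝ} (hβ : 1 < β) (a : ℕ → Bool) :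
    val β a = (val β (fun k => a (k + 1)) + if a 0 then 1 else 0) / β := by
  unfold val
  rw [(summ hβ a).tsum_eq_zero_add, add_div, ← tsum_div_const, add_comm]
  congr 1
  · refine tsum_congr fun k => ?_
    rw [pow_succ β (k + 1), div_div]
  · simp

theorem prob {β : ℝ} (hβ : 1 < β) : IsProbabilityMeasure (nu β) :=
  Measure.isProbabilityMeasure_map (meas_val hβ).aemeasurable

theorem supp {β : ℝ} (hβ : 1 < β) : ∀ᵐ y ∂(nu β), y ∈ Icc 0 (1 / (β - 1)) :=
  (ae_map_iff (meas_val hβ).aemeasurable measurableSet_Icc).2 (ae_of_all _ (val_mem hβ))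

theorem split_pi : (Measure.infinitePi fun _ : ℕ => coin).map
    (fun a : ℕ → Bool => (a 0, fun k => a (k + 1))) =
      coin.prod (Measure.infinitePi fun _ : ℕ => coin) := by
  set P := Measure.infinitePi fun _ : ℕ => coin
  have hi : iIndepFun (fun (i : ℕ) (ω : ℕ → Bool) => ω i) P :=
    iIndepFun_infinitePi (X := fun _ b => b) (fun _ => measurable_id)
  have h2 : IndepFun (fun a : ℕ → Bool => a 0) (fun (a : ℕ → Bool) k => a (k + 1)) P := by
    rw [iIndepFun_iff_iIndep] at hi
    have := indep_iSup_of_disjoint (fun i => (measurable_pi_apply i).comap_le) hi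
      (S := {0}) (T := {0}ᶜ) disjoint_compl_right
    rw [IndepFun_iff_Indep]
    refine indep_of_indep_of_le_right (indep_of_indep_of_le_left this ?_) ?_
    · exact le_iSup₂_of_le 0 rfl le_rfl
    · rw [← measurable_iff_comap_le]
      refine @measurable_pi_lambda _ _ _ (_) _ _ fun k => ?_
      rw [measurable_iff_comap_le]
      exact le_iSup₂_of_le (k + 1) (by simp) le_rfl
  have m1 : Measurable fun a : ℕ → Bool => a 0 := measurable_pi_apply 0
  have m2 : Measurable fun (a : ℕ → Bool) k => a (k + 1) :=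
    measurable_pi_lambda _ fun k => measurable_pi_apply _
  rw [(indepFun_iff_map_prod_eq_prod_map_map m1.aemeasurable m2.aemeasurable).1 h2,
    Measure.infinitePi_map_eval,
    Measure.map_infinitePi_infinitePi_of_inj (f := fun k : ℕ => k + 1) (add_left_injective 1)]

variable {E : Type*} [NormedAddCommGroup E] [NormedSpace ℝ E]

theorem selfsim [CompleteSpace E] {β : ℝ} (hβ : 1 < β) (F : ℝ → E) (hF : StronglyMeasurable F)
    (C : ℝ) (hC : ∀ y, ‖F y‖ ≤ C) :
    ∫ y, F y ∂(nu β) = (1 / 2 : ℝ) • (∫ y, F (y / β) ∂(nu β) + ∫ y, F ((y + 1) / β) ∂(nu β)) := by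
  set P := Measure.infinitePi fun _ : ℕ => coin
  have hv := meas_val hβ
  set G : Bool × (ℕ → Bool) → E := fun p => F ((val β p.2 + if p.1 then 1 else 0) / β)
  have hG : StronglyMeasurable G := by
    refine hF.comp_measurable (Measurable.div_const (Measurable.add (hv.comp measurable_snd) ?_) _)
    exact (measurable_of_countable (fun b : Bool => (if b then (1:ℝ) else 0))).comp measurable_fst
  have h1 : ∫ y, F y ∂(nu β) = ∫ p, G p ∂(coin.prod P) := by
    rw [← split_pi, integral_map (by fun_prop) hG.aestronglyMeasurable, nu,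
      integral_map hv.aemeasurable hF.aestronglyMeasurable]
    refine integral_congr_ae (ae_of_all _ fun a => ?_)
    simp only [G]
    rw [← val_shift hβ]
  rw [h1, integral_prod _ (Integrable.of_bound hG.aestronglyMeasurable C
    (ae_of_all _ fun p => hC _)), coin, PMF.integral_eq_sum]
  rw [nu, integral_map (f := fun y => F (y / β)) hv.aemeasurable
    (hF.comp_measurable (measurable_id.div_const β)).aestronglyMeasurable,
    integral_map (f := fun y => F ((y + 1) / β)) hv.aemeasurable
    (hF.comp_measurable ((measurable_id.add_const 1).div_const β)).aestronglyMeasurable]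
  simp [G, P, add_comm, smul_add]

/-- transfer operator -/
noncomputable def L (β : ℝ) (g : ℝ → E) : ℝ → E :=
  fun x => (β / 2) • (g (β * x) + g (β * x - 1))

theorem L_add (β : ℝ) (n : ℕ) (g h : ℝ → E) (x : ℝ) :
    (L β)^[n] (fun u => g u + h u) x = (L β)^[n] g x + (L β)^[n] h x := by
  induction n generalizing x with
  | zero => rfl
  | succ n ih =>
    simp only [Function.iterate_succ_apply', L, ih, smul_add]
    abel

theorem L_map {F : Type*} [NormedAddCommGroup F] [NormedSpace ℝ F] (T : E →L[ℝ] F)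
    (β : ℝ) (n : ℕ) (g : ℝ → E) (x : ℝ) :
    (L β)^[n] (fun u => T (g u)) x = T ((L β)^[n] g x) := by
  induction n generalizing x with
  | zero => rfl
  | succ n ih => simp only [Function.iterate_succ_apply', L, ih, map_smul, map_add]

theorem L_mul (β c : ℝ) (n : ℕ) (g : ℝ → ℝ) (x : ℝ) :
    (L β)^[n] (fun u => c * g u) x = c * (L β)^[n] g x :=
  L_map (c • ContinuousLinearMap.id ℝ ℝ) β n g x

theorem L_norm {β : ℝ} (hβ : 0 ≤ β) (n : ℕ) (g : ℝ → E) (G : ℝ → ℝ) (h : ∀ u, ‖g u‖ ≤ G u)
    (x : ℝ) : ‖(L β)^[n] g x‖ ≤ (L β)^[n] G x := by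
  induction n generalizing x with
  | zero => exact h x
  | succ n ih =>
    simp only [Function.iterate_succ_apply', L, smul_eq_mul]
    rw [norm_smul, Real.norm_of_nonneg (by positivity)]
    exact mul_le_mul_of_nonneg_left ((norm_add_le _ _).trans (add_le_add (ih _) (ih _)))
      (by positivity)

theorem L_mono {β : ℝ} (hβ : 0 ≤ β) (n : ℕ) (g G : ℝ → ℝ) (h : ∀ u, g u ≤ G u)
    (x : ℝ) : (L β)^[n] g x ≤ (L β)^[n] G x := by
  induction n generalizing x with
  | zero => exact h x
  | succ n ih =>
    simp only [Function.iterate_succ_apply', L, smul_eq_mul]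
    exact mul_le_mul_of_nonneg_left (add_le_add (ih _) (ih _)) (by positivity)

theorem L_conv [CompleteSpace E] {β : ℝ} (hβ : 1 < β) (g : ℝ → E) (hg : StronglyMeasurable g)
    (C : ℝ) (hC : ∀ y, ‖g y‖ ≤ C) (n : ℕ) (x : ℝ) :
    (L β)^[n] (fun u => ∫ y, g (u - y) ∂(nu β)) x =
      β ^ n • ∫ y, g (β ^ n * (x - y)) ∂(nu β) := by
  induction n generalizing x with
  | zero => simp
  | succ n ih =>
    have h0 : β ≠ 0 := by linarith
    simp only [Function.iterate_succ_apply', L, ih]
    rw [selfsim hβ (fun y => g (β ^ (n + 1) * (x - y)))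
      (hg.comp_measurable (by fun_prop)) C (fun y => hC _), ← smul_add, smul_smul, smul_smul]
    rw [show β / 2 * β ^ n = β ^ (n + 1) * (1 / 2) by ring]
    congr 2
    · refine integral_congr_ae (ae_of_all _ fun y => ?_)
      simp only
      congr 1
      field_simp
      ring
    · refine integral_congr_ae (ae_of_all _ fun y => ?_)
      simp only
      congr 1
      field_simp
      ring

end Pool.Agent.H.MP_ddcbd8_an
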