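import Pool.Agent.H.MP_ddcbd8_an.A

set_option autoImplicit false

open MeasureTheory Filter Topology Set Metric

namespace Pool.Agent.H.MP_ddcbd8_an

/-- Lebesgue point -/
def Leb (h : ℝ → ℝ) (x : ℝ) : Prop :=
  Tendsto (fun r => (∫ y in closedBall x r, |h y - h x|) / r) (𝓝[>] 0) (𝓝 0)

theorem leb_ae {h : ℝ → ℝ} (hh : Integrable h) : ∀ᵐ x, Leb h x := by
  filter_upwards [(Besicovitch.vitaliFamily volume).ae_tendsto_average_norm_sub
    hh.locallyIntegrable] with x hx
  have := (hx.comp (Besicovitch.tendsto_filterAt volume x)).const_mul 2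
  rw [mul_zero] at this
  refine this.congr' ?_
  filter_upwards [self_mem_nhdsWithin] with r hr
  have hr : 0 < r := hr
  simp only [Function.comp, setAverage_eq, Real.volume_real_closedBall hr.le, smul_eq_mul,
    Real.norm_eq_abs]
  field_simp

theorem int_k {s : ℝ} (hs : s ≠ 0) (x : ℝ) :
    Integrable fun y : ℝ => (1 + (s * (x - y)) ^ 2)⁻¹ :=
  ((integrable_inv_one_add_sq.comp_mul_left' hs).comp_sub_left x)

theorem int_kh {h : ℝ → ℝ} (hh : Integrable h) {s : ℝ} (hs : s ≠ 0) (x : ℝ) :
    Integrable fun y : ℝ => (1 + (s * (x - y)) ^ 2)⁻¹ * |h y - h x| := by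
  have hk : ∀ y : ℝ, (1 + (s * (x - y)) ^ 2)⁻¹ ≤ 1 := fun y =>
    inv_le_one_of_one_le₀ (by nlinarith [sq_nonneg (s * (x - y))])
  refine Integrable.mono' (hh.abs.add ((int_k hs x).mul_const |h x|))
    ((int_k hs x).aestronglyMeasurable.mul
      (hh.aestronglyMeasurable.sub aestronglyMeasurable_const).norm) (ae_of_all _ fun y => ?_)
  have h0 : 0 ≤ (1 + (s * (x - y)) ^ 2)⁻¹ := by positivity
  rw [Real.norm_of_nonneg (by positivity), Pi.add_apply]
  have := abs_sub (h y) (h x)
  nlinarith [hk y, abs_nonneg (h y), abs_nonneg (h x)]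

theorem poisson {h : ℝ → ℝ} (hh : Integrable h) {x : ℝ} (hx : Leb h x) :
    Tendsto (fun s : ℝ => s * ∫ y, (1 + (s * (x - y)) ^ 2)⁻¹ * |h y - h x|) atTop (𝓝 0) := by
  set A : ℝ → ℝ := fun r => ∫ y in closedBall x r, |h y - h x|
  have hI : ∀ r, IntegrableOn (fun y => |h y - h x|) (closedBall x r) := fun r =>
    (hh.integrableOn.sub (integrableOn_const measure_closedBall_lt_top.ne)).abs
  have A0 : ∀ r, 0 ≤ A r := fun r => integral_nonneg fun y => abs_nonneg _
  obtain ⟨Ω, hΩ⟩ : ∃ Ω, ∀ r, 0 < r → A r / r ≤ Ω := by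
    obtain ⟨δ, hδ, H⟩ := (nhdsGT_basis (0:ℝ)).eventually_iff.1
      (hx.eventually (gt_mem_nhds one_pos))
    refine ⟨1 + (∫ y, |h y|) / δ + 2 * |h x|, fun r hr => ?_⟩
    have i0 : 0 ≤ ∫ y, |h y| := integral_nonneg fun y => abs_nonneg _
    by_cases hrδ : r < δ
    · have := H ⟨hr, hrδ⟩
      have : 0 ≤ (∫ y, |h y|) / δ + 2 * |h x| := by positivity
      linarith
    · have h1 : A r ≤ ∫ y in closedBall x r, (|h y| + |h x|) :=
        setIntegral_mono (hI r) (hh.abs.integrableOn.add
          (integrableOn_const measure_closedBall_lt_top.ne)) fun y => abs_sub _ _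
      rw [integral_add hh.abs.integrableOn (integrableOn_const measure_closedBall_lt_top.ne),
        setIntegral_const, Real.volume_real_closedBall hr.le, smul_eq_mul] at h1
      have h2 : ∫ y in closedBall x r, |h y| ≤ ∫ y, |h y| :=
        setIntegral_le_integral hh.abs (ae_of_all _ fun y => abs_nonneg _)
      have h3 : (∫ y, |h y|) / r ≤ (∫ y, |h y|) / δ := by gcongr; linarith
      have h4 : A r / r ≤ (∫ y, |h y|) / r + 2 * |h x| := by
        rw [div_add' _ _ _ hr.ne']
        gcongr
        linarith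
      linarith
  have hT : Tendsto (fun s : ℝ => ∑' j : ℕ, 4 * (1 / 2) ^ j * (A (2 ^ j / s) / (2 ^ j / s)))
      atTop (𝓝 (∑' _ : ℕ, (0:ℝ))) := by
    refine tendsto_tsum_of_dominated_convergence (bound := fun j => 4 * (1 / 2) ^ j * Ω)
      ((summable_geometric_two.mul_left 4).mul_right Ω) (fun j => ?_) ?_
    · have h1 : Tendsto (fun s : ℝ => (2:ℝ) ^ j / s) atTop (𝓝[>] 0) :=
        tendsto_nhdsWithin_iff.2 ⟨tendsto_const_nhds.div_atTop tendsto_id,
          (eventually_gt_atTop 0).mono fun s hs => by
            have : (0:ℝ) < 2 ^ j / s := by positivity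
            exact this⟩
      have h2 := (hx.comp h1).const_mul (4 * (1 / 2) ^ j)
      rwa [mul_zero] at h2
    · filter_upwards [eventually_gt_atTop 0] with s hs j
      have := A0 (2 ^ j / s)
      rw [Real.norm_of_nonneg (by positivity)]
      gcongr
      exact hΩ _ (by positivity)
  rw [tsum_zero] at hT
  refine squeeze_zero' ?_ ?_ hT
  · filter_upwards [eventually_gt_atTop 0] with s hs
    exact mul_nonneg hs.le (integral_nonneg fun y => by positivity)
  · filter_upwards [eventually_gt_atTop 0] with s hs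
    set B : ℕ → Set ℝ := fun j => closedBall x (2 ^ j / s)
    have hB : Monotone B := fun i j hij => closedBall_subset_closedBall (by gcongr; norm_num)
    have hU : ⋃ j, disjointed B j = univ := by
      rw [iUnion_disjointed, eq_univ_iff_forall]
      intro y
      obtain ⟨j, hj⟩ := pow_unbounded_of_one_lt (dist y x * s) (one_lt_two (α := ℝ))
      exact mem_iUnion.2 ⟨j, mem_closedBall.2 (by rw [le_div_iff₀ hs]; exact hj.le)⟩
    have hm : ∀ j, MeasurableSet (disjointed B j) :=
      MeasurableSet.disjointed fun j => measurableSet_closedBall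
    have H := (hasSum_integral_iUnion hm (disjoint_disjointed B)
      (int_kh hh hs.ne' x).integrableOn).mul_left s
    rw [hU, Measure.restrict_univ] at H
    refine hasSum_le (fun j => ?_) H (Summable.hasSum ?_)
    · have h1 : ∫ y in disjointed B j, (1 + (s * (x - y)) ^ 2)⁻¹ * |h y - h x| ≤
          ∫ y in disjointed B j, 4 * (1 / 4) ^ j * |h y - h x| := by
        refine setIntegral_mono_on (int_kh hh hs.ne' x).integrableOn
          (((hI _).mono_set (disjointed_subset B j)).const_mul _) (hm j) fun y hy => ?_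
        gcongr
        rcases j with _ | j
        · exact (inv_le_one_of_one_le₀ (by nlinarith [sq_nonneg (s * (x - y))])).trans
            (by norm_num)
        · rw [hB.disjointed_add_one] at hy
          have h2 : 2 ^ j / s < |x - y| := by
            have := hy.2
            simp only [B, mem_closedBall, not_le] at this
            rwa [dist_comm, Real.dist_eq] at this
          rw [div_lt_iff₀ hs] at h2
          have h3 : ((2:ℝ) ^ j) ^ 2 ≤ (s * (x - y)) ^ 2 := by
            rw [mul_pow, ← sq_abs (x - y), ← mul_pow, mul_comm s]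
            gcongr
          have h4 : (4:ℝ) * (1 / 4) ^ (j + 1) = (((2:ℝ) ^ j) ^ 2)⁻¹ := by
            rw [← pow_mul, mul_comm j 2, pow_mul, pow_succ, one_div, inv_pow]
            norm_num
            ring
          rw [h4]
          gcongr
          linarith
      rw [integral_const_mul] at h1
      have h2 : ∫ y in disjointed B j, |h y - h x| ≤ A (2 ^ j / s) :=
        setIntegral_mono_set (hI _) (ae_of_all _ fun y => abs_nonneg _)
          (disjointed_subset B j).eventuallyLE
      have h3 : 4 * (1 / 2) ^ j * (A (2 ^ j / s) / (2 ^ j / s)) =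
          s * (4 * (1 / 4) ^ j * A (2 ^ j / s)) := by
        rw [show (1 / 4 : ℝ) = 1 / 2 * (1 / 2) by norm_num, mul_pow, one_div, inv_pow]
        field_simp
      rw [h3]
      gcongr
      exact h1.trans (by gcongr)
    · refine Summable.of_nonneg_of_le (fun j => ?_) (fun j => ?_)
        ((summable_geometric_two.mul_left 4).mul_right Ω)
      · have := A0 (2 ^ j / s)
        positivity
      · gcongr
        exact hΩ _ (by positivity)

variable {E : Type*} [NormedAddCommGroup E] [NormedSpace ℝ E]

theorem peak {h : ℝ → ℝ} (hh : Integrable h) {x : ℝ} (hx : Leb h x) (g : ℝ → E)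
    (hg : StronglyMeasurable g) (C : ℝ) (hC : ∀ v, ‖g v‖ ≤ C * (1 + v ^ 2)⁻¹) :
    Tendsto (fun s : ℝ => s • ∫ y, h y • g (s * (x - y))) atTop (𝓝 (h x • ∫ v, g v)) := by
  have gi : Integrable g :=
    (integrable_inv_one_add_sq.const_mul C).mono' hg.aestronglyMeasurable (ae_of_all _ hC)
  have C0 : 0 ≤ C := by simpa using (norm_nonneg _).trans (hC 0)
  have gb : ∀ v, ‖g v‖ ≤ C := fun v => (hC v).trans
    (mul_le_of_le_one_right C0 (inv_le_one_of_one_le₀ (by nlinarith [sq_nonneg v])))
  rw [tendsto_iff_norm_sub_tendsto_zero]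
  have H := (poisson hh hx).const_mul C
  rw [mul_zero] at H
  refine squeeze_zero' (Eventually.of_forall fun s => norm_nonneg _) ?_ H
  filter_upwards [eventually_gt_atTop 0] with s hs
  have g1 : Integrable fun y => g (s * (x - y)) := (gi.comp_mul_left' hs.ne').comp_sub_left x
  have g2 : ∫ v, g v = s • ∫ y, g (s * (x - y)) := by
    rw [integral_sub_left_eq_self (fun y => g (s * y)) volume x, Measure.integral_comp_mul_left,
      smul_smul, abs_of_pos (inv_pos.2 hs), mul_inv_cancel₀ hs.ne', one_smul]
  have g3 : Integrable fun y => h y • g (s * (x - y)) :=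
    hh.smul_of_top_left (memLp_top_of_bound g1.aestronglyMeasurable C (ae_of_all _ fun y => gb _))
  have g4 : Integrable fun y => h x • g (s * (x - y)) := g1.smul (h x)
  rw [g2, smul_comm, ← smul_sub, ← integral_smul, ← integral_sub g3 g4, norm_smul,
    Real.norm_of_nonneg hs.le, mul_left_comm, ← integral_const_mul]
  gcongr
  refine norm_integral_le_of_norm_le ((int_kh hh hs.ne' x).const_mul C) (ae_of_all _ fun y => ?_)
  rw [← sub_smul, norm_smul, Real.norm_eq_abs, mul_comm, ← mul_assoc]
  gcongr
  exact hC _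

end Pool.Agent.H.MP_ddcbd8_an
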