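import Pool.Agent.H.MP_ddcbd8_an.B

set_option autoImplicit false

open MeasureTheory Filter Topology Set Metric Real
open scoped FourierTransform

namespace Pool.Agent.H.MP_ddcbd8_an

theorem ratl {ρ : ℚ} (hρ : 1 < ρ) {θ : ℝ}
    (h : Tendsto (fun n : ℕ => sin (π * (θ * (ρ:ℝ) ^ n))) atTop (𝓝 0)) :
    ∀ᶠ n : ℕ in atTop, ∃ z : ℤ, θ * (ρ:ℝ) ^ n = z := by
  set x : ℕ → ℝ := fun n => θ * (ρ:ℝ) ^ n
  set ε : ℕ → ℝ := fun n => x n - round (x n)
  have hρ' : (1:ℝ) < ρ := by exact_mod_cast hρ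
  have hε : Tendsto ε atTop (𝓝 0) := by
    refine squeeze_zero_norm (fun n => ?_) (by simpa using h.abs)
    have h1 : |π * ε n| ≤ π / 2 := by
      rw [abs_mul, abs_of_pos pi_pos]
      have := abs_sub_round (x n)
      nlinarith [pi_pos]
    have h2 := mul_abs_le_abs_sin h1
    rw [abs_mul, abs_of_pos pi_pos, ← mul_assoc, div_mul_cancel₀ _ pi_pos.ne',
      show π * ε n = π * x n - (round (x n) : ℤ) * π by simp only [ε]; ring,
      sin_sub_int_mul_pi, abs_mul, abs_zpow, abs_neg, abs_one, one_zpow, one_mul] at h2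
    rw [Real.norm_eq_abs]
    linarith [abs_nonneg (ε n)]
  have hq : (ρ:ℝ) * ρ.den = ρ.num := by exact_mod_cast ρ.mul_den_eq_num
  have hq0 : (0:ℝ) < ρ.den := by exact_mod_cast ρ.den_pos
  have h2 : Tendsto (fun n => (ρ.num:ℝ) * ε n - ρ.den * ε (n + 1)) atTop (𝓝 0) := by
    simpa using (hε.const_mul (ρ.num:ℝ)).sub
      ((hε.comp (tendsto_add_atTop_nat 1)).const_mul (ρ.den:ℝ))
  obtain ⟨N, hN⟩ := eventually_atTop.1 (h2.eventually (Metric.ball_mem_nhds 0 one_pos))
  have h3 : ∀ n, N ≤ n → ε (n + 1) = ρ * ε n := by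
    intro n hn
    have e1 : (ρ.num:ℝ) * ε n - ρ.den * ε (n + 1) =
        ((ρ.den * round (x (n + 1)) - ρ.num * round (x n) : ℤ) : ℝ) := by
      simp only [ε, x, pow_succ]
      push_cast
      rw [← hq]
      ring
    have h4 := hN n hn
    rw [dist_zero_right, e1, Real.norm_eq_abs, ← Int.cast_abs, ← Int.cast_one, Int.cast_lt,
      Int.abs_lt_one_iff] at h4
    rw [h4, Int.cast_zero, ← hq] at e1
    have : (ρ.den:ℝ) * (ε (n + 1) - ρ * ε n) = 0 := by linarith
    rcases mul_eq_zero.1 this with h5 | h5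
    · exact absurd h5 hq0.ne'
    · linarith
  filter_upwards [eventually_ge_atTop N] with n hn
  have h5 : ∀ k, |ε n| ≤ |ε (n + k)| := by
    intro k
    induction k with
    | zero => simp
    | succ k ih =>
      rw [← add_assoc, h3 _ (by omega), abs_mul, abs_of_pos (by linarith : (0:ℝ) < ρ)]
      nlinarith [abs_nonneg (ε (n + k))]
  have h6 : Tendsto (fun k => |ε (n + k)|) atTop (𝓝 0) := by
    simpa [add_comm n] using (hε.comp (tendsto_add_atTop_nat n)).abs
  have h7 := ge_of_tendsto' h6 h5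
  exact ⟨round (x n), sub_eq_zero.1 (abs_nonpos_iff.1 h7)⟩

theorem dioph {β t : ℝ} (h1 : 1 < β) (h2 : β < 2) (ht : t ≠ 0)
    (hs : Tendsto (fun k : ℕ => sin (π * (β ^ k * t))) atTop (𝓝 0))
    {d : ℕ} (hd : d ≠ 0) {ρ : ℚ} (hρ : β ^ d = ρ) : False := by
  have hρ1 : 1 < ρ := by
    have : (1:ℝ) < ρ := hρ ▸ one_lt_pow₀ h1 hd
    exact_mod_cast this
  have hdt : Tendsto (fun n : ℕ => d * n) atTop atTop :=
    tendsto_id.const_mul_atTop' (Nat.pos_of_ne_zero hd)
  have a1 := ratl hρ1 (θ := t) ((hs.comp hdt).congr fun n => by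
    simp only [Function.comp, pow_mul, hρ, mul_comm t])
  have a2 := ratl hρ1 (θ := t * β) (((hs.comp (tendsto_add_atTop_nat 1)).comp hdt).congr fun n => by
    simp only [Function.comp, pow_succ, pow_mul, hρ]; congr 1; ring)
  obtain ⟨n, ⟨z1, e1⟩, ⟨z2, e2⟩⟩ := (a1.and a2).exists
  have z0 : (z1:ℝ) ≠ 0 := e1 ▸ mul_ne_zero ht (pow_ne_zero _ (by norm_cast; linarith))
  obtain ⟨r, hr⟩ : ∃ r : ℚ, β = r := ⟨z2 / z1, by
    push_cast
    rw [eq_div_iff z0, ← e1, ← e2]
    ring⟩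
  subst hr
  have r1 : 1 < r := by exact_mod_cast h1
  have r2 : r < 2 := by exact_mod_cast h2
  obtain ⟨N, hN⟩ := eventually_atTop.1 (ratl r1 (θ := t) (hs.congr fun n => by rw [mul_comm t]))
  obtain ⟨z, hz⟩ := hN N le_rfl
  have z0 : z ≠ 0 := by
    rintro rfl
    exact mul_ne_zero ht (pow_ne_zero _ (by linarith)) (hz.trans Int.cast_zero)
  have hden : 1 < r.den := by
    by_contra hh
    have h3 : r.den = 1 := by have := r.den_pos; omega
    rw [← (Rat.den_eq_one_iff r).1 h3] at r1 r2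
    have : 1 < r.num := by exact_mod_cast r1
    have : r.num < 2 := by exact_mod_cast r2
    omega
  obtain ⟨w, hw⟩ := hN (N + z.natAbs) (by omega)
  set k := z.natAbs
  have hq : (r:ℝ) * r.den = r.num := by exact_mod_cast r.mul_den_eq_num
  have e3 : z * r.num ^ k = w * (r.den:ℤ) ^ k := by
    have : (z:ℝ) * r.num ^ k = w * (r.den:ℝ) ^ k := by
      rw [← hz, ← hw, ← hq]
      ring
    exact_mod_cast this
  have hc : IsCoprime ((r.den:ℤ) ^ k) (r.num ^ k) :=
    (Int.isCoprime_iff_gcd_eq_one.2 (by simpa [Int.gcd] using r.reduced.symm)).pow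
  have hdv : (r.den:ℤ) ^ k ∣ z := hc.dvd_of_dvd_mul_right ⟨w, by rw [e3]; ring⟩
  have := Int.natAbs_le_of_dvd_ne_zero hdv z0
  rw [Int.natAbs_pow, Int.natAbs_natCast] at this
  exact absurd (Nat.lt_pow_self hden) (not_lt.2 this)

theorem weier (s : ℕ → ℝ) (h0 : ∀ k, 0 ≤ s k) (h1 : ∀ k, s k ≤ 1) (m : ℕ) :
    1 - ∑ k ∈ Finset.range m, s k ≤ ∏ k ∈ Finset.range m, (1 - s k) := by
  induction m with
  | zero => simp
  | succ m ih =>
    rw [Finset.sum_range_succ, Finset.prod_range_succ]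
    have := Finset.sum_nonneg (s := Finset.range m) fun k _ => h0 k
    nlinarith [mul_le_mul_of_nonneg_right ih (sub_nonneg.2 (h1 m)), h0 m]

/-- character -/
noncomputable def e (t : ℝ) : ℂ := Complex.exp (↑(2 * π * t) * Complex.I)

noncomputable def c (t : ℝ) : ℂ := (1 + e t) / 2

noncomputable def P (β : ℝ) (m : ℕ) (t : ℝ) : ℂ := ∏ k ∈ Finset.range m, c (β ^ k * t)

noncomputable def nh (β t : ℝ) : ℂ := ∫ y, e (t * y) ∂(nu β)

theorem e_add (s t : ℝ) : e (s + t) = e s * e t := by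
  simp only [e, ← Complex.exp_add]; congr 1; push_cast; ring

theorem e_norm (t : ℝ) : ‖e t‖ = 1 := Complex.norm_exp_ofReal_mul_I _

theorem e_smooth : ContDiff ℝ ⊤ e :=
  ((Complex.ofRealCLM.contDiff.comp (contDiff_const.mul contDiff_id)).mul contDiff_const).cexp

theorem P_smooth (β : ℝ) (m : ℕ) : ContDiff ℝ 2 (P β m) :=
  contDiff_prod fun _ _ => ((contDiff_const.add ((e_smooth.of_le le_top).comp
    (contDiff_const.mul contDiff_id))).div_const 2)

theorem c_norm (t : ℝ) : ‖c t‖ = |cos (π * t)| := by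
  have : c t = e (t / 2) * (cos (π * t) : ℝ) := by
    rw [Complex.ofReal_cos, Complex.cos, c, e, e, mul_div_assoc', mul_add, ← Complex.exp_add,
      ← Complex.exp_add, add_comm]
    congr 2
    · congr 1; push_cast; ring
    · rw [← Complex.exp_zero]; congr 1; push_cast; ring
  rw [this, norm_mul, e_norm, one_mul, Complex.norm_real, Real.norm_eq_abs]

theorem P_sq (β : ℝ) (m : ℕ) (t : ℝ) :
    ‖P β m t‖ ^ 2 = ∏ k ∈ Finset.range m, (1 - sin (π * (β ^ k * t)) ^ 2) := by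
  rw [P, norm_prod, ← Finset.prod_pow]
  exact Finset.prod_congr rfl fun k _ => by rw [c_norm, sq_abs, cos_sq']

theorem nh_smooth {β : ℝ} (hβ : 1 < β) : ContDiff ℝ 2 (nh β) := by
  have := prob hβ
  have h : nh β = fun t => charFun (nu β) (2 * π * t) := by
    ext t
    rw [charFun_apply_real, nh]
    refine integral_congr_ae (ae_of_all _ fun y => ?_)
    simp only [e]; congr 1; push_cast; ring
  rw [h]
  exact (contDiff_charFun (n := 2) (memLp_of_bounded (supp hβ) aestronglyMeasurable_id _)).comp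
    (contDiff_const.mul contDiff_id)

theorem nh_zero {β : ℝ} (hβ : 1 < β) : nh β 0 = 1 := by
  have := prob hβ
  simp [nh, e]

theorem nh_mul {β : ℝ} (hβ : 1 < β) (t : ℝ) : nh β (β * t) = c t * nh β t := by
  have h0 : β ≠ 0 := by linarith
  rw [nh, selfsim hβ (fun y => e (β * t * y))
    (e_smooth.continuous.comp (by fun_prop)).stronglyMeasurable 1 fun y => (e_norm _).le]
  have h1 : ∀ y, β * t * (y / β) = t * y := fun y => by field_simp
  simp only [h1, mul_add, mul_one, e_add, integral_mul_const, c, nh, Complex.real_smul]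
  push_cast
  ring

theorem nh_pow {β : ℝ} (hβ : 1 < β) (m : ℕ) (t : ℝ) : nh β (β ^ m * t) = P β m t * nh β t := by
  induction m with
  | zero => simp [P]
  | succ m ih =>
    rw [pow_succ', mul_assoc, nh_mul hβ, ih, P, P, Finset.prod_range_succ]
    ring

theorem nh_zeros {β : ℝ} (hβ : 1 < β) (T : ℝ) : ∃ m : ℕ, ∀ t, |t| ≤ T → nh β t = 0 →
    ∃ j ≤ m, ∃ a : ℤ, t = (a + 1 / 2) * β ^ j := by
  have h0 : 0 < β := by linarith
  obtain ⟨δ, hδ, H⟩ := Metric.eventually_nhds_iff.1 ((nh_smooth hβ).continuous.continuousAt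
    (x := 0).eventually_ne (y := 0) (by rw [nh_zero hβ]; exact one_ne_zero))
  obtain ⟨m, hm⟩ := pow_unbounded_of_one_lt (T / δ) hβ
  refine ⟨m, fun t ht hz => ?_⟩
  have h1 : nh β (t / β ^ m) ≠ 0 := H (by
    rw [dist_zero_right, Real.norm_eq_abs, abs_div, abs_of_pos (pow_pos h0 m),
      div_lt_iff₀ (pow_pos h0 m)]
    rw [div_lt_iff₀ hδ] at hm
    linarith)
  have h2 := nh_pow hβ m (t / β ^ m)
  rw [mul_div_cancel₀ _ (pow_pos h0 m).ne', hz] at h2
  obtain ⟨k, hk, hc⟩ := Finset.prod_eq_zero_iff.1 ((mul_eq_zero.1 h2.symm).resolve_right h1)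
  rw [← norm_eq_zero, c_norm, abs_eq_zero, cos_eq_zero_iff] at hc
  obtain ⟨a, ha⟩ := hc
  obtain ⟨j, rfl⟩ := Nat.exists_eq_add_of_le (Finset.mem_range.1 hk).le
  refine ⟨j, by omega, a, ?_⟩
  have : π * (t - (a + 1 / 2) * β ^ j) = 0 := by
    rw [pow_add] at ha
    field_simp at ha
    linear_combination (π / 2) * ha
  exact sub_eq_zero.1 ((mul_eq_zero.1 this).resolve_left pi_pos.ne')

theorem nh_fin {β : ℝ} (hβ : 1 < β) {K : Set ℝ} (hK : IsCompact K) :
    {t | t ∈ K ∧ nh β t = 0}.Finite := by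
  obtain ⟨T, hT⟩ := hK.isBounded.exists_norm_le
  obtain ⟨m, hm⟩ := nh_zeros hβ T
  refine (((finite_le_nat m).prod (finite_Icc (-⌈T⌉ - 1) ⌈T⌉)).image
    fun p : ℕ × ℤ => (p.2 + 1 / 2) * β ^ p.1).subset ?_
  rintro t ⟨ht, hz⟩
  obtain ⟨j, hj, a, ha⟩ := hm t (hT t ht) hz
  refine ⟨(j, a), ⟨hj, ?_⟩, ha.symm⟩
  have h1 := hT t ht
  rw [ha, Real.norm_eq_abs, abs_mul, abs_of_pos (pow_pos (by linarith : 0 < β) j)] at h1
  have h2 := one_le_pow₀ (n := j) hβ.le
  have h3 : |(a:ℝ) + 1 / 2| ≤ T := by nlinarith [abs_nonneg ((a:ℝ) + 1 / 2)]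
  have h4 := Int.le_ceil T
  rw [abs_le] at h3
  constructor
  · have : ((-⌈T⌉ - 1 : ℤ) : ℝ) ≤ a := by push_cast; linarith
    exact_mod_cast this
  · have : (a : ℝ) ≤ ⌈T⌉ := by linarith
    exact_mod_cast this

theorem nh_RL {β : ℝ} (hβ : 1 < β) (hac : nu β ≪ volume) :
    Tendsto (nh β) (cocompact ℝ) (𝓝 0) := by
  have := prob hβ
  have h := (Real.zero_at_infty_fourier
    (fun y => (((nu β).rnDeriv volume y).toReal : ℂ))).comp
    (Homeomorph.neg ℝ).toCocompactMap.cocompact_tendsto'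
  refine h.congr fun t => ?_
  simp only [Function.comp, fourier_real_eq_integral_exp_smul, nh]
  rw [← integral_rnDeriv_smul hac]
  refine integral_congr_ae (ae_of_all _ fun y => ?_)
  simp only [e, smul_eq_mul, Complex.real_smul, mul_comm (Complex.exp _)]
  congr 3
  simp
  ring

theorem P_small {β : ℝ} (h1 : 1 < β) (h2 : β < 2) (hac : nu β ≪ volume) {t : ℝ} (ht : t ≠ 0)
    {δ : ℝ} (hδ : 0 < δ) : ∃ m, ‖P β m t‖ < δ := by
  by_contra! H
  have h0 : 0 < β := by linarith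
  set s : ℕ → ℝ := fun k => sin (π * (β ^ k * t)) ^ 2
  have hs : Summable s := by
    refine summable_of_sum_range_le (c := -log (δ ^ 2)) (fun k => sq_nonneg _) fun m => ?_
    have h3 : δ ^ 2 ≤ exp (-∑ k ∈ Finset.range m, s k) := by
      refine (pow_le_pow_left₀ hδ.le (H m) 2).trans ?_
      rw [P_sq, ← Finset.sum_neg_distrib, exp_sum]
      exact Finset.prod_le_prod (fun k _ => sub_nonneg.2 (sin_sq_le_one _))
        fun k _ => one_sub_le_exp_neg _
    have := (log_le_iff_le_exp (by positivity)).2 h3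
    linarith
  obtain ⟨J, hJ⟩ := ((tendsto_sum_nat_add s).eventually
    (gt_mem_nhds (show (0:ℝ) < 1 / 8 by norm_num))).exists
  have key : ∀ q : ℝ, q ≠ 0 → (∀ θ, sin (π * (q * θ)) ^ 2 ≤ 4 * sin (π * θ) ^ 2) →
      ∃ j : ℕ, ∃ a : ℤ, q * (β ^ J * t) = (a + 1 / 2) * β ^ j := by
    intro q hq hs2
    set u := q * (β ^ J * t)
    have u0 : u ≠ 0 := by positivity
    have hP : ∀ m, 1 / 2 ≤ ‖P β m u‖ ^ 2 := by
      intro m
      rw [P_sq]
      refine le_trans ?_ (weier _ (fun k => sq_nonneg _) (fun k => sin_sq_le_one _) m)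
      have h4 : ∑ k ∈ Finset.range m, sin (π * (β ^ k * u)) ^ 2 ≤
          ∑ k ∈ Finset.range m, 4 * s (k + J) := Finset.sum_le_sum fun k _ => by
        rw [show β ^ k * u = q * (β ^ (k + J) * t) by simp only [u]; ring]
        exact hs2 _
      have h5 := ((summable_nat_add_iff J).2 hs).sum_le_tsum (Finset.range m)
        (fun k _ => sq_nonneg _)
      rw [← Finset.mul_sum] at h4
      linarith
    have hT : Tendsto (fun m : ℕ => β ^ m * u) atTop (cocompact ℝ) := by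
      rw [← Metric.cobounded_eq_cocompact, ← tendsto_norm_atTop_iff_cobounded]
      simp only [norm_mul, norm_pow, Real.norm_of_nonneg h0.le]
      exact (tendsto_pow_atTop_atTop_of_one_lt h1).atTop_mul_const (norm_pos_iff.2 u0)
    have h6 := (((nh_RL h1 hac).comp hT).norm.pow 2).const_mul 2
    have h7 : ‖nh β u‖ ^ 2 ≤ 2 * ‖(0:ℂ)‖ ^ 2 := ge_of_tendsto' h6 fun m => by
      simp only [Function.comp, nh_pow h1, norm_mul, mul_pow]
      nlinarith [hP m, sq_nonneg ‖nh β u‖]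
    obtain ⟨m, hm⟩ := nh_zeros h1 |u|
    obtain ⟨j, -, a, ha⟩ := hm u le_rfl (by simpa using h7)
    exact ⟨j, a, ha⟩
  obtain ⟨i, a, ha⟩ := key 1 one_ne_zero fun θ => by
    rw [one_mul]; nlinarith [sq_nonneg (sin (π * θ))]
  obtain ⟨j, b, hb⟩ := key 2 two_ne_zero fun θ => by
    rw [mul_left_comm, sin_two_mul, mul_pow, mul_pow]
    nlinarith [sq_nonneg (sin (π * θ)), cos_sq_le_one (π * θ)]
  have hs0 : Tendsto (fun k : ℕ => sin (π * (β ^ k * t))) atTop (𝓝 0) := by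
    have := hs.tendsto_atTop_zero.sqrt
    rw [sqrt_zero] at this
    exact squeeze_zero_norm (fun k => by rw [sqrt_sq_eq_abs, Real.norm_eq_abs]) this
  have a0 : (2 * a + 1 : ℝ) ≠ 0 := by norm_cast; omega
  have b0 : (2 * b + 1 : ℝ) ≠ 0 := by norm_cast; omega
  have E : 2 * (2 * a + 1) * β ^ i = (2 * b + 1) * β ^ j := by linarith
  rcases lt_trichotomy i j with hij | rfl | hij
  · obtain ⟨d, rfl⟩ := Nat.exists_eq_add_of_lt hij
    refine dioph h1 h2 ht hs0 (d := d + 1) (by omega) (ρ := 2 * (2 * a + 1) / (2 * b + 1)) ?_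
    push_cast
    rw [eq_div_iff b0]
    apply mul_left_cancel₀ (pow_pos h0 i).ne'
    linear_combination -E
  · have : (2 * (2 * a + 1) : ℝ) = 2 * b + 1 := mul_right_cancel₀ (pow_pos h0 i).ne' E
    norm_cast at this
    omega
  · obtain ⟨d, rfl⟩ := Nat.exists_eq_add_of_lt hij
    refine dioph h1 h2 ht hs0 (d := d + 1) (by omega) (ρ := (2 * b + 1) / (2 * (2 * a + 1))) ?_
    push_cast
    rw [eq_div_iff (mul_ne_zero two_ne_zero a0)]
    apply mul_left_cancel₀ (pow_pos h0 j).ne'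
    linear_combination E

end Pool.Agent.H.MP_ddcbd8_an
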