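import Pool.Agent.H.MP_ddcbd8_an.C

set_option autoImplicit false

open MeasureTheory Filter Topology Set Metric Real
open scoped FourierTransform

namespace Pool.Agent.H.MP_ddcbd8_an

theorem four (W : ℝ → ℂ) (v : ℝ) : 𝓕 W v = ∫ t, e (-(t * v)) * W t := by
  rw [fourier_real_eq_integral_exp_smul]
  refine integral_congr_ae (ae_of_all _ fun t => ?_)
  simp only [e, smul_eq_mul]
  congr 3
  push_cast
  ring

theorem bdd_mul {F W : ℝ → ℂ} (hF : Continuous F) (M : ℝ) (hM : ∀ t, ‖F t‖ ≤ M)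
    (hW : Integrable W) : Integrable fun t => F t * W t :=
  hW.bdd_mul hF.aestronglyMeasurable (ae_of_all _ hM)

theorem int_e {W : ℝ → ℂ} (hW : Integrable W) (v : ℝ) : Integrable fun t => e (-(t * v)) * W t :=
  bdd_mul (e_smooth.continuous.comp (by fun_prop)) 1 (fun _ => (e_norm _).le) hW

theorem four_add {W V : ℝ → ℂ} (hW : Integrable W) (hV : Integrable V) (v : ℝ) :
    𝓕 (fun t => W t + V t) v = 𝓕 W v + 𝓕 V v := by
  simp only [four, mul_add]
  exact integral_add (int_e hW v) (int_e hV v)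

theorem four_mul (a : ℂ) (W : ℝ → ℂ) (v : ℝ) : 𝓕 (fun t => a * W t) v = a * 𝓕 W v := by
  simp only [four, mul_left_comm _ a, integral_const_mul]

theorem four_le (W : ℝ → ℂ) (v : ℝ) : ‖𝓕 W v‖ ≤ ∫ t, ‖W t‖ := by
  rw [four]
  exact (norm_integral_le_integral_norm _).trans (by simp [e_norm])

theorem four_cont {W : ℝ → ℂ} (hW : Integrable W) : Continuous (𝓕 W) :=
  VectorFourier.fourierIntegral_continuous continuous_fourierChar (by exact continuous_inner) hW

theorem four_scale (G : ℝ → ℂ) (t0 : ℝ) {η : ℝ} (hη : 0 < η) (v : ℝ) :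
    ‖𝓕 (fun t => G ((t - t0) / η)) v‖ = η * ‖𝓕 G (η * v)‖ := by
  have h := Measure.integral_comp_div (fun s => e (-(s * (η * v))) * G s) η
  rw [← integral_sub_right_eq_self _ t0, ← four, abs_of_pos hη] at h
  rw [← Real.norm_of_nonneg hη.le, ← norm_smul, Real.norm_of_nonneg hη.le, ← h, four,
    ← one_mul ‖∫ t, e (-((t - t0) / η * (η * v))) * _‖, ← e_norm (-(t0 * v)), ← norm_mul,
    ← integral_const_mul]
  congr 2
  ext t
  rw [← mul_assoc, ← e_add]
  congr 2
  field_simp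
  ring

/-- two integrable derivatives -/
structure W2 (W : ℝ → ℂ) : Prop where
  s : ContDiff ℝ 2 W
  i0 : Integrable W
  i1 : Integrable (deriv W)
  i2 : Integrable (deriv (deriv W))

theorem d1 {W : ℝ → ℂ} (h : ContDiff ℝ 2 W) : Differentiable ℝ W := h.differentiable two_ne_zero

theorem s1 {W : ℝ → ℂ} (h : ContDiff ℝ 2 W) : ContDiff ℝ 1 (deriv W) :=
  ContDiff.deriv' (n := 1) h

theorem d2 {W : ℝ → ℂ} (h : ContDiff ℝ 2 W) : Differentiable ℝ (deriv W) :=
  (s1 h).differentiable one_ne_zero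

theorem c2 {W : ℝ → ℂ} (h : ContDiff ℝ 2 W) : Continuous (deriv (deriv W)) :=
  (s1 h).continuous_deriv le_rfl

theorem W2.of_cs {W : ℝ → ℂ} (h : ContDiff ℝ 2 W) (hc : HasCompactSupport W) : W2 W :=
  ⟨h, h.continuous.integrable_of_hasCompactSupport hc,
    (s1 h).continuous.integrable_of_hasCompactSupport hc.deriv,
    (c2 h).integrable_of_hasCompactSupport hc.deriv.deriv⟩

theorem W2.dec {W : ℝ → ℂ} (h : W2 W) (v : ℝ) :
    ‖𝓕 W v‖ ≤ ((∫ t, ‖W t‖) + ∫ t, ‖deriv (deriv W) t‖) * (1 + v ^ 2)⁻¹ := by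
  have h1 := four_le W v
  have h2 := four_le (deriv (deriv W)) v
  rw [fourier_deriv h.i1 (d2 h.s) h.i2, fourier_deriv h.i0 (d1 h.s) h.i1] at h2
  simp only [norm_smul, norm_mul, Complex.norm_I, Complex.norm_real, Complex.norm_ofNat,
    Real.norm_eq_abs, abs_of_pos pi_pos, mul_one] at h2
  rw [← div_eq_mul_inv, le_div_iff₀ (by positivity), ← sq_abs v]
  have h3 : |v| ≤ 2 * π * |v| := le_mul_of_one_le_left (abs_nonneg v) (by linarith [pi_gt_three])
  have h4 : |v| * (|v| * ‖𝓕 W v‖) ≤ 2 * π * |v| * (2 * π * |v| * ‖𝓕 W v‖) := by gcongr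
  linarith

theorem nsmall {F w : ℝ → ℂ} (hF : ContDiff ℝ 2 F) (hc : HasCompactSupport F) (hw : W2 w)
    (t0 : ℝ) {ε : ℝ} (hε : 0 < ε) : ∀ᶠ η in 𝓝 (0:ℝ), ∀ v,
      ‖𝓕 (fun s => (F (t0 + η * s) - F t0) * w s) v‖ ≤ ε * (1 + v ^ 2)⁻¹ := by
  obtain ⟨M0, h0⟩ := hF.continuous.bounded_above_of_compact_support hc
  obtain ⟨M1, h1⟩ := (s1 hF).continuous.bounded_above_of_compact_support hc.deriv
  obtain ⟨M2, h2⟩ := (c2 hF).bounded_above_of_compact_support hc.deriv.deriv
  have cF := hF.continuous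
  have cF1 := (s1 hF).continuous
  have cF2 := c2 hF
  set A0 : ℝ → ℝ → ℂ := fun η s => F (t0 + η * s) - F t0
  set A1 : ℝ → ℝ → ℂ := fun η s => η * deriv F (t0 + η * s)
  set A2 : ℝ → ℝ → ℂ := fun η s => η * (η * deriv (deriv F) (t0 + η * s))
  have dl : ∀ η s : ℝ, HasDerivAt (fun s => t0 + η * s) η s := fun η s => by
    simpa using ((hasDerivAt_id s).const_mul η).const_add t0
  have e0 : ∀ η s, HasDerivAt (A0 η) (A1 η s) s := fun η s =>
    ((d1 hF _).hasDerivAt.scomp s (dl η s)).sub_const _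
  have e1 : ∀ η s, HasDerivAt (A1 η) (A2 η s) s := fun η s =>
    ((d2 hF _).hasDerivAt.scomp s (dl η s)).const_mul (η:ℂ)
  have g1 : ∀ η, deriv (fun s => A0 η s * w s) = fun s => A1 η s * w s + A0 η s * deriv w s :=
    fun η => funext fun s => ((e0 η s).mul (d1 hw.s s).hasDerivAt).deriv
  have g2 : ∀ η, deriv (deriv (fun s => A0 η s * w s)) = fun s =>
      (A2 η s * w s + A1 η s * deriv w s) + (A1 η s * deriv w s + A0 η s * deriv (deriv w) s) :=
    fun η => g1 η ▸ funext fun s => (((e1 η s).mul (d1 hw.s s).hasDerivAt).add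
      ((e0 η s).mul (d2 hw.s s).hasDerivAt)).deriv
  have b0 : ∀ η s, ‖A0 η s‖ ≤ M0 + M0 := fun η s => (norm_sub_le _ _).trans
    (add_le_add (h0 _) (h0 _))
  have b1 : ∀ η s, ‖A1 η s‖ ≤ |η| * M1 := fun η s => by
    simp only [A1, norm_mul, Complex.norm_real, Real.norm_eq_abs]
    gcongr; exact h1 _
  have b2 : ∀ η s, ‖A2 η s‖ ≤ |η| * (|η| * M2) := fun η s => by
    simp only [A2, norm_mul, Complex.norm_real, Real.norm_eq_abs]
    gcongr; exact h2 _
  have k0 : Continuous fun p : ℝ × ℝ => A0 p.1 p.2 := by simp only [A0]; fun_prop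
  have k1 : Continuous fun p : ℝ × ℝ => A1 p.1 p.2 := by simp only [A1]; fun_prop
  have k2 : Continuous fun p : ℝ × ℝ => A2 p.1 p.2 := by simp only [A2]; fun_prop
  have hW : ∀ η, W2 fun s => A0 η s * w s := fun η => by
    have i0 := fun {V : ℝ → ℂ} => bdd_mul (W := V) (k0.comp (Continuous.prodMk_right η)) _ (b0 η)
    have i1 := fun {V : ℝ → ℂ} => bdd_mul (W := V) (k1.comp (Continuous.prodMk_right η)) _ (b1 η)
    have i2 := fun {V : ℝ → ℂ} => bdd_mul (W := V) (k2.comp (Continuous.prodMk_right η)) _ (b2 η)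
    refine ⟨((hF.comp (by fun_prop)).sub contDiff_const).mul hw.s, i0 hw.i0, ?_, ?_⟩
    · rw [g1]; exact (i1 hw.i0).add (i0 hw.i1)
    · rw [g2]; exact ((i2 hw.i0).add (i1 hw.i1)).add ((i1 hw.i1).add (i0 hw.i2))
  have key : ∀ (A : ℝ → ℝ → ℂ) (V : ℝ → ℂ) (M : ℝ), Continuous (fun p : ℝ × ℝ => A p.1 p.2) →
      (∀ η s, |η| ≤ 1 → ‖A η s‖ ≤ M) → (∀ s, A 0 s = 0) → Integrable V →
      Tendsto (fun η => ∫ s, ‖A η s * V s‖) (𝓝 0) (𝓝 0) := by
    intro A V M hA hM hz hV
    have := tendsto_integral_filter_of_dominated_convergence (μ := volume) (l := 𝓝 (0:ℝ))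
      (F := fun η s => ‖A η s * V s‖) (f := fun _ => 0) (fun s => M * ‖V s‖)
      (Eventually.of_forall fun η =>
        ((hA.comp (Continuous.prodMk_right η)).aestronglyMeasurable.mul hV.1).norm) ?_
      (hV.norm.const_mul M) (ae_of_all _ fun s => ?_)
    · simpa using this
    · filter_upwards [closedBall_mem_nhds (0:ℝ) one_pos] with η hη
      refine ae_of_all _ fun s => ?_
      rw [norm_norm, norm_mul]
      gcongr
      exact hM η s (by simpa using hη)
    · have := (((hA.comp (Continuous.prodMk_left s)).tendsto 0).mul_const (V s)).norm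
      simpa [hz] using this
  have M1' : 0 ≤ M1 := (norm_nonneg _).trans (h1 0)
  have M2' : 0 ≤ M2 := (norm_nonneg _).trans (h2 0)
  have t0' := fun V => key A0 V _ k0 (fun η s _ => b0 η s) (fun s => by simp [A0])
  have t1' := fun V => key A1 V M1 k1 (fun η s h => (b1 η s).trans (by nlinarith))
    (fun s => by simp [A1])
  have t2' := fun V => key A2 V M2 k2 (fun η s h => (b2 η s).trans
    (by nlinarith [mul_le_mul_of_nonneg_right h M2', abs_nonneg η])) (fun s => by simp [A2])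
  have T := (t0' _ hw.i0).add (((t2' _ hw.i0).add (t1' _ hw.i1)).add
    ((t1' _ hw.i1).add (t0' _ hw.i2)))
  simp only [add_zero] at T
  filter_upwards [T.eventually (gt_mem_nhds hε)] with η hη v
  refine ((hW η).dec v).trans ?_
  gcongr
  refine le_trans ?_ hη.le
  have i0 := fun {V : ℝ → ℂ} h =>
    (bdd_mul (W := V) (k0.comp (Continuous.prodMk_right η)) _ (b0 η) h).norm
  have i1 := fun {V : ℝ → ℂ} h =>
    (bdd_mul (W := V) (k1.comp (Continuous.prodMk_right η)) _ (b1 η) h).norm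
  have i2 := fun {V : ℝ → ℂ} h =>
    (bdd_mul (W := V) (k2.comp (Continuous.prodMk_right η)) _ (b2 η) h).norm
  simp only [Function.comp] at i0 i1 i2
  rw [← integral_add (i2 hw.i0) (i1 hw.i1), ← integral_add (i1 hw.i1) (i0 hw.i2),
    ← integral_add ((i2 hw.i0).fun_add (i1 hw.i1)) ((i1 hw.i1).fun_add (i0 hw.i2))]
  refine add_le_add le_rfl (integral_mono (hW η).i2.norm (((i2 hw.i0).add (i1 hw.i1)).add
    ((i1 hw.i1).add (i0 hw.i2))) fun s => ?_)
  rw [g2]
  exact (norm_add_le _ _).trans (add_le_add (norm_add_le _ _) (norm_add_le _ _))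

theorem c_le (t : ℝ) : ‖c t‖ ≤ 1 := by rw [c_norm]; exact abs_cos_le_one _

theorem L_four {β : ℝ} {W : ℝ → ℂ} (hW : Integrable W) (m : ℕ) (u : ℝ) :
    (L β)^[m] (𝓕 W) u = β ^ m • 𝓕 (fun t => P β m t * W t) (β ^ m * u) := by
  induction m generalizing u with
  | zero => simp [P]
  | succ m ih =>
    have hP : Integrable fun t => P β m t * W t := bdd_mul (P_smooth β m).continuous 1
      (fun t => by
        rw [P, norm_prod]
        exact Finset.prod_le_one (fun _ _ => norm_nonneg _) fun _ _ => c_le _) hW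
    simp only [Function.iterate_succ_apply', L, ih, four]
    rw [← smul_add, ← integral_add (int_e hP _) (int_e hP _), smul_smul,
      show β / 2 * β ^ m = β ^ (m + 1) * (1 / 2) by ring, mul_smul, ← integral_smul]
    congr 2
    ext t
    rw [show -(t * (β ^ m * (β * u - 1))) = -(t * (β ^ (m + 1) * u)) + β ^ m * t by ring,
      show β ^ m * (β * u) = β ^ (m + 1) * u by ring, e_add]
    simp only [P, Finset.prod_range_succ, c, Complex.real_smul]
    push_cast
    ring

end Pool.Agent.H.MP_ddcbd8_an
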