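import Pool.Agent.H.MP_ddcbd8_an.D

set_option autoImplicit false

open MeasureTheory Filter Topology Set Metric Real
open scoped FourierTransform

namespace Pool.Agent.H.MP_ddcbd8_an

/-- density -/
noncomputable def dens (β : ℝ) (x : ℝ) : ℝ := ((nu β).rnDeriv volume x).toReal

/-- Poisson envelope -/
noncomputable def K (η u : ℝ) : ℝ := η * (1 + (η * u) ^ 2)⁻¹

/-- standing hypotheses -/
structure Hyp (β x : ℝ) : Prop where
  h1 : 1 < β
  h2 : β < 2
  ac : nu β ≪ volume
  leb : Leb (dens β) x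

variable {β x : ℝ}

theorem Hyp.conv {E : Type*} [NormedAddCommGroup E] [NormedSpace ℝ E] [CompleteSpace E]
    (H : Hyp β x) (g : ℝ → E) (hg : StronglyMeasurable g) (C : ℝ)
    (hC : ∀ v, ‖g v‖ ≤ C * (1 + v ^ 2)⁻¹) :
    Tendsto (fun n => (L β)^[n] (fun u => ∫ y, g (u - y) ∂(nu β)) x) atTop
      (𝓝 (dens β x • ∫ v, g v)) := by
  have := prob H.h1
  have C0 : 0 ≤ C := by simpa using (norm_nonneg _).trans (hC 0)
  have gb : ∀ v, ‖g v‖ ≤ C := fun v => (hC v).trans
    (mul_le_of_le_one_right C0 (inv_le_one_of_one_le₀ (by nlinarith [sq_nonneg v])))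
  refine ((peak Measure.integrable_toReal_rnDeriv H.leb g hg C hC).comp
    (tendsto_pow_atTop_atTop_of_one_lt H.h1)).congr fun n => ?_
  rw [L_conv H.h1 g hg C gb, ← integral_rnDeriv_smul H.ac]
  rfl

theorem Hyp.env (H : Hyp β x) {η : ℝ} (h0 : 0 < η) (h1 : η ≤ β - 1) :
    ∀ᶠ n in atTop, (L β)^[n] (K η) x ≤ 3 * (dens β x * π + 1) := by
  have := prob H.h1
  have η1 : η ≤ 1 := by linarith [H.h2]
  have cK : Continuous (K η) := by
    unfold K
    exact continuous_const.mul (Continuous.inv₀ (by fun_prop) fun u => by positivity)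
  have K0 : ∀ u, 0 ≤ K η u := fun u => by unfold K; positivity
  have hC : ∀ v, ‖K η v‖ ≤ η⁻¹ * (1 + v ^ 2)⁻¹ := fun v => by
    rw [Real.norm_of_nonneg (K0 v), K, ← mul_inv, ← div_eq_mul_inv, ← one_div,
      div_le_div_iff₀ (by positivity) (by positivity)]
    nlinarith
  have hI : ∫ v, K η v = π := by
    simp only [K, integral_const_mul]
    rw [Measure.integral_comp_mul_left (fun v => (1 + v ^ 2)⁻¹), integral_univ_inv_one_add_sq,
      abs_of_pos (inv_pos.2 h0), smul_eq_mul, mul_inv_cancel_left₀ h0.ne']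
  have T := H.conv (K η) cK.stronglyMeasurable _ hC
  rw [hI, smul_eq_mul] at T
  filter_upwards [T.eventually (gt_mem_nhds (lt_add_one _))] with n hn
  refine le_trans ?_ (mul_le_mul_of_nonneg_left hn.le (by norm_num))
  rw [← L_mul]
  refine L_mono (by linarith [H.h1]) n _ _ (fun u => ?_) x
  rw [← integral_const_mul]
  refine le_trans (le_of_eq (by simp)) (integral_mono_ae (integrable_const (K η u))
    (Integrable.const_mul (Integrable.of_bound (by fun_prop) η (ae_of_all _ fun y => ?_)) 3) ?_)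
  · rw [Real.norm_of_nonneg (K0 _)]
    exact mul_le_of_le_one_right h0.le
      (inv_le_one_of_one_le₀ (by nlinarith [sq_nonneg (η * (u - y))]))
  · filter_upwards [supp H.h1] with y hy
    have a1 : η * y ≤ 1 := by
      have := hy.2
      rw [le_div_iff₀ (by linarith [H.h1])] at this
      nlinarith [hy.1]
    have a0 : 0 ≤ η * y := mul_nonneg h0.le hy.1
    simp only [K]
    rw [mul_left_comm, ← div_eq_mul_inv 3, ← one_div]
    gcongr η * ?_
    rw [div_le_div_iff₀ (by positivity) (by positivity), mul_sub]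
    nlinarith [sq_nonneg (η * u + η * y), sq_nonneg (η * u)]

/-- the limit relation for the Fourier transform of `ψ` -/
def Good (β x : ℝ) (ψ : ℝ → ℂ) : Prop :=
  Tendsto (fun n => (L β)^[n] (𝓕 ψ) x) atTop (𝓝 (dens β x • ψ 0))

theorem Hyp.approx (H : Hyp β x) {ψ : ℝ → ℂ} (h : ∀ ε : ℝ, 0 < ε → ∃ ψ1 ψ2 : ℝ → ℂ,
    Integrable ψ1 ∧ Integrable ψ2 ∧ (∀ t, ψ t = ψ1 t + ψ2 t) ∧ ψ2 0 = 0 ∧ Good β x ψ1 ∧
      ∃ (m : ℕ) (η : ℝ), 0 < η ∧ η ≤ β - 1 ∧ ∀ u, ‖(L β)^[m] (𝓕 ψ2) u‖ ≤ ε * K η u) :
    Good β x ψ := by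
  refine Metric.tendsto_nhds.2 fun ε hε => ?_
  set C := 3 * (dens β x * π + 1)
  have C0 : 0 < C := by
    have : 0 ≤ dens β x := ENNReal.toReal_nonneg
    positivity
  obtain ⟨ψ1, ψ2, i1, i2, e1, e2, g1, m, η, h0, h1, hb⟩ := h (ε / 2 / C) (by positivity)
  have a2 : ∀ᶠ n in atTop, ‖(L β)^[n] (𝓕 ψ2) x‖ ≤ ε / 2 := by
    rw [← map_add_atTop_eq_nat m, eventually_map]
    filter_upwards [H.env h0 h1] with n hn
    rw [Function.iterate_add_apply]
    refine (L_norm (by linarith [H.h1]) n _ _ hb x).trans ?_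
    rw [L_mul]
    exact (mul_le_mul_of_nonneg_left hn (by positivity)).trans (div_mul_cancel₀ _ C0.ne').le
  filter_upwards [a2, Metric.tendsto_nhds.1 g1 _ (half_pos hε)] with n b2 b1
  have : 𝓕 ψ = fun u => 𝓕 ψ1 u + 𝓕 ψ2 u := by
    rw [funext e1]
    exact funext (four_add i1 i2)
  rw [this, L_add, e1, e2, add_zero, dist_eq_norm, add_sub_right_comm]
  rw [dist_eq_norm] at b1
  linarith [norm_add_le ((L β)^[n] (𝓕 ψ1) x - dens β x • ψ1 0) ((L β)^[n] (𝓕 ψ2) x)]

theorem Hyp.base (H : Hyp β x) {ψ : ℝ → ℂ} (hs : ContDiff ℝ 2 ψ) (hc : HasCompactSupport ψ)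
    (hz : ∀ t ∈ tsupport ψ, nh β t ≠ 0) : Good β x ψ := by
  have := prob H.h1
  set W : ℝ → ℂ := fun t => ψ t / nh β t
  have sW : ContDiff ℝ 2 W := by
    rw [contDiff_iff_contDiffAt]
    intro t
    by_cases ht : t ∈ tsupport ψ
    · simp only [W, div_eq_mul_inv]
      exact hs.contDiffAt.mul ((nh_smooth H.h1).contDiffAt.inv (hz t ht))
    · refine (contDiffAt_const (c := (0:ℂ))).congr_of_eventuallyEq ?_
      filter_upwards [notMem_tsupport_iff_eventuallyEq.1 ht] with s h
      simp only [W, h, Pi.zero_apply, zero_div]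
  have w := W2.of_cs sW (by simp only [W, div_eq_mul_inv]; exact hc.mul_right)
  have T := H.conv (𝓕 W) (four_cont w.i0).stronglyMeasurable _ w.dec
  have iF : Integrable (𝓕 W) := (integrable_inv_one_add_sq.const_mul _).mono'
    (four_cont w.i0).aestronglyMeasurable (ae_of_all _ w.dec)
  have e1 : ∫ v, 𝓕 W v = ψ 0 := by
    have := congrFun (sW.continuous.fourierInv_fourier_eq w.i0 iF) 0
    simpa [fourierInv_eq, W, nh_zero H.h1] using this
  have e2 : (fun u => ∫ y, 𝓕 W (u - y) ∂(nu β)) = 𝓕 ψ := by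
    ext u
    simp only [four]
    rw [integral_integral_swap]
    · refine integral_congr_ae (ae_of_all _ fun t => ?_)
      have : ∀ y, e (-(t * (u - y))) * W t = e (-(t * u)) * W t * e (t * y) := fun y => by
        rw [mul_right_comm, ← e_add]
        congr 2
        ring
      simp only [this, integral_const_mul]
      rw [← nh, mul_assoc]
      by_cases ht : ψ t = 0
      · simp [W, ht]
      · rw [div_mul_cancel₀ _ (hz t (subset_tsupport _ ht))]
    · refine (w.i0.comp_snd (nu β)).bdd_mul (c := 1)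
        (e_smooth.continuous.comp (by fun_prop)).aestronglyMeasurable
        (ae_of_all _ fun p => (e_norm _).le)
  rwa [e1, e2] at T

/-- cut-off -/
noncomputable def bump : ContDiffBump (0:ℝ) := ⟨1, 2, one_pos, one_lt_two⟩

noncomputable def chi (t : ℝ) : ℂ := bump t

theorem chi_s : ContDiff ℝ 2 chi := Complex.ofRealCLM.contDiff.comp bump.contDiff

theorem chi_c : HasCompactSupport chi := bump.hasCompactSupport.comp_left Complex.ofReal_zero

theorem Hyp.step (H : Hyp β x) (Z : Set ℝ) (hZ : Z.Finite) : ∀ ψ : ℝ → ℂ, ContDiff ℝ 2 ψ →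
    HasCompactSupport ψ → (∀ t ∈ tsupport ψ, nh β t = 0 → t ∈ Z) → Good β x ψ := by
  induction Z, hZ using Set.Finite.induction_on with
  | empty => exact fun ψ hs hc hz => H.base hs hc hz
  | @insert t0 Z _ _ ih =>
    intro ψ hs hc hz
    by_cases h0 : nh β t0 = 0
    swap
    · exact ih ψ hs hc fun t ht hn => (hz t ht hn).resolve_left (by rintro rfl; exact h0 hn)
    have t0' : t0 ≠ 0 := by
      rintro rfl
      exact one_ne_zero ((nh_zero H.h1).symm.trans h0)
    have β0 : 0 < β := by linarith [H.h1]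
    refine H.approx fun ε hε => ?_
    have w := W2.of_cs chi_s chi_c
    set N := (∫ t, ‖chi t‖) + ∫ t, ‖deriv (deriv chi) t‖
    have N0 : 0 ≤ N := by positivity
    obtain ⟨m, hm⟩ := P_small H.h1 H.h2 H.ac t0' (δ := ε / 2 / (‖ψ t0‖ * N + 1)) (by positivity)
    set F : ℝ → ℂ := fun t => P β m t * ψ t
    have sF : ContDiff ℝ 2 F := (P_smooth β m).mul hs
    have hF : ‖F t0‖ * N ≤ ε / 2 := by
      rw [lt_div_iff₀ (by positivity)] at hm
      rw [norm_mul]
      nlinarith [norm_nonneg (P β m t0)]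
    obtain ⟨η, ⟨⟨a1, a2⟩, a3⟩, η0⟩ := ((((nsmall sF hc.mul_left w t0 (half_pos hε)).and
      (gt_mem_nhds (show 0 < |t0| / 2 by positivity))).and (gt_mem_nhds
      (show 0 < (β - 1) / β ^ m by have := H.h1; positivity))).filter_mono nhdsWithin_le_nhds
      |>.and (self_mem_nhdsWithin (s := Ioi (0:ℝ)))).exists
    have η0 : 0 < η := η0
    have sχ : ContDiff ℝ 2 fun t => chi ((t - t0) / η) := chi_s.comp (by fun_prop)
    have s1 : ContDiff ℝ 2 fun t => ψ t * (1 - chi ((t - t0) / η)) :=
      hs.mul (contDiff_const.sub sχ)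
    have i2 := (W2.of_cs (hs.mul sχ) hc.mul_right).i0
    refine ⟨fun t => ψ t * (1 - chi ((t - t0) / η)), fun t => ψ t * chi ((t - t0) / η),
      (W2.of_cs s1 hc.mul_right).i0, i2, fun t => by ring, ?_, ih _ s1 hc.mul_right ?_,
      m, η * β ^ m, by positivity, ((lt_div_iff₀ (by positivity)).1 a3).le, fun u => ?_⟩
    · simp only [chi]
      rw [bump.zero_of_le_dist, Complex.ofReal_zero, mul_zero]
      rw [dist_zero_right, zero_sub, Real.norm_eq_abs, abs_div, abs_neg, abs_of_pos η0,
        le_div_iff₀ η0]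
      simp only [bump]
      linarith
    · intro t ht hn
      refine (hz t (tsupport_mul_subset_left ht) hn).resolve_left ?_
      rintro rfl
      refine notMem_tsupport_iff_eventuallyEq.2 ?_ ht
      filter_upwards [closedBall_mem_nhds t η0] with s h
      simp only [chi]
      rw [bump.one_of_mem_closedBall]
      · simp
      · rw [mem_closedBall_zero_iff, Real.norm_eq_abs, abs_div, abs_of_pos η0]
        exact (div_le_one η0).2 h
    · have e1 : (fun t => P β m t * (ψ t * chi ((t - t0) / η))) = fun t =>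
          (fun s => (F (t0 + η * s) - F t0) * chi s + F t0 * chi s) ((t - t0) / η) := by
        ext t
        simp only [F, mul_div_cancel₀ _ η0.ne', add_sub_cancel]
        ring
      have i3 := (W2.of_cs (((sF.comp (f := fun s => t0 + η * s) (by fun_prop)).sub
        (contDiff_const (c := F t0))).mul chi_s) chi_c.mul_left).i0
      simp only [Function.comp] at i3
      rw [L_four i2, norm_smul, e1,
        four_scale (fun s => (F (t0 + η * s) - F t0) * chi s + F t0 * chi s) t0 η0,
        four_add i3 (w.i0.const_mul _), four_mul,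
        Real.norm_of_nonneg (by positivity), K, ← mul_assoc, mul_comm (β ^ m), mul_left_comm ε,
        mul_assoc η _ u]
      gcongr
      refine (norm_add_le _ _).trans ((add_le_add (a1 _) ?_).trans (by rw [← add_mul, add_halves]))
      rw [norm_mul]
      refine (mul_le_mul_of_nonneg_left (w.dec _) (norm_nonneg _)).trans ?_
      rw [← mul_assoc]
      gcongr

theorem Hyp.good (H : Hyp β x) {ψ : ℝ → ℂ} (w : W2 ψ) : Good β x ψ := by
  refine H.approx fun ε hε => ?_
  have b0 : 0 < β - 1 := by linarith [H.h1]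
  obtain ⟨η, a1, η0⟩ := (((nsmall chi_s chi_c w 0 (mul_pos hε b0)).filter_mono
    nhdsWithin_le_nhds).and (self_mem_nhdsWithin (s := Ioi (0:ℝ)))).exists
  have η0 : 0 < η := η0
  have c0 : chi 0 = 1 := by simp [chi, bump.one_of_mem_closedBall (mem_closedBall_self zero_le_one)]
  have s1 : ContDiff ℝ 2 fun t => chi (η * t) * ψ t := (chi_s.comp (by fun_prop)).mul w.s
  have c1 : HasCompactSupport fun t => chi (η * t) * ψ t :=
    (chi_c.comp_homeomorph (Homeomorph.mulLeft₀ η η0.ne')).mul_right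
  have i1 := (W2.of_cs s1 c1).i0
  refine ⟨fun t => chi (η * t) * ψ t, fun t => -1 * ((chi (0 + η * t) - chi 0) * ψ t), i1, ?_,
    fun t => by simp only [c0, zero_add]; ring, by simp,
    H.step _ (nh_fin H.h1 c1.isCompact) _ s1 c1 fun t ht hn => ⟨ht, hn⟩,
    0, β - 1, b0, le_rfl, fun u => ?_⟩
  · simp only [zero_add, c0, sub_mul, one_mul]
    exact (i1.sub w.i0).const_mul _
  · rw [Function.iterate_zero_apply, four_mul, norm_mul, norm_neg, norm_one, one_mul, K,
      ← mul_assoc]
    refine (a1 u).trans ?_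
    gcongr _ * (1 + ?_)⁻¹
    rw [mul_pow]
    exact mul_le_of_le_one_left (sq_nonneg u) (by nlinarith [H.h2])

theorem Hyp.bumps (H : Hyp β x) {a : ℝ} (φ : ContDiffBump a) :
    Tendsto (fun n => (L β)^[n] φ x) atTop (𝓝 (dens β x * ∫ v, φ v)) := by
  set Φ := (φ.hasCompactSupport.comp_left Complex.ofReal_zero).toSchwartzMap
    (Complex.ofRealCLM.contDiff.comp φ.contDiff)
  set ψ := 𝓕⁻ Φ
  have w : W2 ψ := ⟨ψ.smooth 2, ψ.integrable, (SchwartzMap.derivCLM ℝ ℂ ψ).integrable,
    (SchwartzMap.derivCLM ℝ ℂ (SchwartzMap.derivCLM ℝ ℂ ψ)).integrable⟩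
  have T := (Complex.reCLM.continuous.tendsto _).comp (H.good w)
  have e1 : 𝓕 (ψ : ℝ → ℂ) = fun u => (φ u : ℂ) := by
    rw [← SchwartzMap.fourier_coe, FourierTransform.fourier_fourierInv_eq]
    rfl
  have e2 : ψ 0 = ((∫ v, φ v : ℝ) : ℂ) := by
    rw [SchwartzMap.fourierInv_coe, fourierInv_eq, ← integral_complex_ofReal]
    simp [Φ]
  rw [e1, e2] at T
  convert T using 2 with n
  · rw [Function.comp, ← L_map]
    rfl
  · simp

theorem Hyp.ind (H : Hyp β x) :
    Tendsto (fun n => (L β)^[n] ((Icc 0 (1 / (β - 1))).indicator fun _ => β - 1) x) atTop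
      (𝓝 (dens β x)) := by
  have b0 : 0 < β - 1 := by linarith [H.h1]
  have β0 : 0 ≤ β := by linarith
  have d0 : 0 ≤ dens β x := ENNReal.toReal_nonneg
  set R := 1 / (β - 1) / 2
  have R0 : 0 < R := by positivity
  have hI : Icc 0 (1 / (β - 1)) = closedBall R R := by
    rw [Real.closedBall_eq_Icc, sub_self, add_halves]
  have T : Tendsto (fun r : ℝ => (β - 1) * (dens β x * (2 * r))) (𝓝 R) (𝓝 (dens β x)) := by
    refine Continuous.tendsto' (by fun_prop) _ _ ?_
    simp only [R]
    field_simp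
  rw [hI, tendsto_order]
  constructor
  · intro a ha
    obtain ⟨r, ⟨h1, h2⟩, h3⟩ := ((((T.eventually (lt_mem_nhds ha)).and
      (lt_mem_nhds R0)).filter_mono nhdsWithin_le_nhds).and
      (self_mem_nhdsWithin (s := Iio R))).exists
    set φ : ContDiffBump R := ⟨r, R, h2, h3⟩
    have h4 := φ.measure_closedBall_le_integral volume
    rw [Real.volume_real_closedBall h2.le] at h4
    filter_upwards [((H.bumps φ).const_mul (β - 1)).eventually
      (lt_mem_nhds (h1.trans_le (by gcongr)))] with n hn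
    rw [← L_mul] at hn
    refine hn.trans_le (L_mono β0 n _ _ (fun u => ?_) x)
    by_cases hu : u ∈ closedBall R R
    · rw [indicator_of_mem hu]
      exact mul_le_of_le_one_right b0.le φ.le_one
    · rw [indicator_of_notMem hu, φ.zero_of_le_dist (not_le.1 hu).le, mul_zero]
  · intro a ha
    obtain ⟨r, h1, h3⟩ := (((T.eventually (gt_mem_nhds ha)).filter_mono nhdsWithin_le_nhds).and
      (self_mem_nhdsWithin (s := Ioi R))).exists
    set φ : ContDiffBump R := ⟨R, r, R0, h3⟩
    have h4 := φ.integral_le_measure_closedBall volume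
    rw [Real.volume_real_closedBall (R0.trans h3).le] at h4
    filter_upwards [((H.bumps φ).const_mul (β - 1)).eventually
      (gt_mem_nhds (h1.trans_le' (by gcongr)))] with n hn
    rw [← L_mul] at hn
    refine hn.trans_le' (L_mono β0 n _ _ (fun u => ?_) x)
    by_cases hu : u ∈ closedBall R R
    · rw [indicator_of_mem hu, φ.one_of_mem_closedBall hu, mul_one]
    · rw [indicator_of_notMem hu]
      exact mul_nonneg b0.le φ.nonneg

theorem sing (h1 : 1 < β) (hs : nu β ⟂ₘ volume) : ∀ᵐ x,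
    Tendsto (fun n => (L β)^[n] ((Icc 0 (1 / (β - 1))).indicator fun _ => β - 1) x) atTop
      (𝓝 0) := by
  have := prob h1
  have b0 : 0 < β - 1 := by linarith
  have β0 : 0 < β := by linarith
  set D := 1 / (β - 1)
  have D0 : 0 < D := by positivity
  filter_upwards [Besicovitch.ae_tendsto_rnDeriv (nu β) volume,
    hs.rnDeriv_ae_eq_zero] with x hx h0
  have a1 : Tendsto (fun n : ℕ => D / β ^ n) atTop (𝓝[>] 0) :=
    tendsto_nhdsWithin_iff.2 ⟨tendsto_const_nhds.div_atTop (tendsto_pow_atTop_atTop_of_one_lt h1),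
      Eventually.of_forall fun n => by
        have : (0:ℝ) < D / β ^ n := by positivity
        exact this⟩
  rw [h0] at hx
  have T := ((ENNReal.tendsto_toReal ENNReal.zero_ne_top).comp (hx.comp a1)).const_mul 2
  rw [ENNReal.toReal_zero, mul_zero] at T
  refine squeeze_zero_norm (fun n => ?_) T
  set g : ℝ → ℝ := (closedBall 0 D).indicator fun _ => β - 1
  have gm : StronglyMeasurable g := stronglyMeasurable_const.indicator measurableSet_closedBall
  have gb : ∀ y, ‖g y‖ ≤ ‖β - 1‖ := fun y => norm_indicator_le_norm_self _ _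
  refine (L_norm β0.le n _ (fun u => ∫ y, g (u - y) ∂(nu β)) (fun u => ?_) x).trans (le_of_eq ?_)
  · by_cases hu : u ∈ Icc 0 D
    · rw [indicator_of_mem hu, Real.norm_of_nonneg b0.le, integral_congr_ae (g := fun _ => β - 1)]
      · simp
      · filter_upwards [supp h1] with y hy
        refine indicator_of_mem ?_ _
        rw [mem_closedBall_zero_iff, Real.norm_eq_abs, abs_le]
        constructor <;> linarith [hu.1, hu.2, hy.1, hy.2]
    · rw [indicator_of_notMem hu, norm_zero]
      exact integral_nonneg fun y => indicator_nonneg (fun _ _ => b0.le) _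
  · have e1 : ∀ y, g (β ^ n * (x - y)) =
        (closedBall x (D / β ^ n)).indicator (fun _ => β - 1) y := by
      intro y
      simp only [g, indicator, mem_closedBall, sub_zero, norm_mul, norm_pow,
        Real.norm_of_nonneg β0.le, le_div_iff₀' (pow_pos β0 n), dist_comm y, dist_eq_norm]
    rw [L_conv h1 g gm _ gb]
    simp only [e1, integral_indicator_const _ measurableSet_closedBall, smul_eq_mul,
      Function.comp, ENNReal.toReal_div, Real.volume_closedBall, Measure.real]
    rw [ENNReal.toReal_ofReal (by positivity)]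
    simp only [D]
    field_simp

end Pool.Agent.H.MP_ddcbd8_an
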